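import Pool.Agent.H705.RO.Stm

/-! # Project RO: LOC -/

set_option autoImplicit false

namespace Pool.Agent.H550.RO

open MeasureTheory ProbabilityTheory Filter Topology Finset Pool.Agent.H705.RO

/-- the argument of the cosine -/
theorem two_pi_arg (g w s : ℕ → ℝ) (x : ℕ → ℝ × ℝ) (n : ℕ) (t : ℝ) :
    2 * Real.pi * arg g w s x n t = (g n + w n * (x n).1) * t + 2 * Real.pi * (x n).2 +
      2 * Real.pi * s n := by
  unfold arg
  have : (2 * Real.pi) ≠ 0 := by positivity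
  field_simp

/-- the deterministic part -/
theorem det (hARC : P_ARC) {a β g w s : ℕ → ℝ} (ha : ∀ n, 0 ≤ a n) {x : ℕ → ℝ × ℝ} {σ δ c : ℝ}
    (hδ0 : 0 < δ) (hδ1 : δ < 1) (hc : c ≤ Real.cos (Real.pi * δ))
    (hs : ∀ n t, Real.cos (2 * Real.pi * arg g w s x n t) =
      σ * Real.cos ((g n + w n * (x n).1) * t + 2 * Real.pi * (x n).2 + β n))
    (h : ∃ N₀ : ℕ, ∀ N : ℕ, N₀ ≤ N → ∃ t : ℝ, (N : ℝ) ≤ t ∧
        t ≤ Real.exp (N * (Real.log (1 / δ) + 1)) ∧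
        (∀ n < N, nr δ (arg g w s x n t)) ∧
        |∑ n ∈ Ico N (N ^ 4), wave a β g w x n t| ≤ 1) :
    ∃ D : ℝ, 1 ≤ D ∧ ∃ N₀ : ℕ, ∀ N : ℕ, N₀ ≤ N →
        ∃ t : ℝ, (N : ℝ) ≤ t ∧ t ≤ Real.exp (D * N) ∧
          c * R a N ≤ σ * part (wave a β g w x) N t ∧
          |∑ n ∈ Ico N (N ^ 4), wave a β g w x n t| ≤ 1 := by
  obtain ⟨N₀, h⟩ := h
  refine ⟨Real.log (1 / δ) + 1, ?_, N₀, fun N hN => ?_⟩
  · have h1 : 1 ≤ 1 / δ := by
      rw [le_div_iff₀ hδ0]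
      linarith
    have := Real.log_nonneg h1
    linarith
  · obtain ⟨t, h1, h2, h3, h4⟩ := h N hN
    refine ⟨t, h1, ?_, ?_, h4⟩
    · rw [mul_comm]
      exact h2
    · unfold R part
      rw [Finset.mul_sum, Finset.mul_sum]
      refine Finset.sum_le_sum fun n hn => ?_
      have h5 := hARC.1 δ _ hδ0.le hδ1.le (h3 n (Finset.mem_range.1 hn))
      rw [hs n t] at h5
      have h6 : c ≤ σ * Real.cos ((g n + w n * (x n).1) * t + 2 * Real.pi * (x n).2 + β n) :=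
        hc.trans h5
      unfold wave
      calc c * a n ≤ (σ * Real.cos ((g n + w n * (x n).1) * t + 2 * Real.pi * (x n).2 + β n)) * a n :=
            mul_le_mul_of_nonneg_right h6 (ha n)
        _ = _ := by ring

theorem T_LOC (hARC : P_ARC) (hLOB : P_LOB) : P_LOC := by
  intro Ω _ P X hM a β g w A hA hW
  have hδ0 : ∀ i : ℕ, (0 : ℝ) < 1 / ((i : ℝ) + 3) := fun i => by positivity
  have hδ1 : ∀ i : ℕ, 1 / ((i : ℝ) + 3) < 1 := fun i => by
    rw [div_lt_one (by positivity)]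
    have : (0 : ℝ) ≤ i := Nat.cast_nonneg i
    linarith
  have key : ∀ s : ℕ → ℝ, ∀ᵐ ω ∂P, ∀ i : ℕ, ∃ N₀ : ℕ, ∀ N : ℕ, N₀ ≤ N → ∃ t : ℝ, (N : ℝ) ≤ t ∧
        t ≤ Real.exp (N * (Real.log (1 / (1 / ((i : ℝ) + 3))) + 1)) ∧
        (∀ n < N, nr (1 / ((i : ℝ) + 3)) (arg g w s (fun n => X n ω) n t)) ∧
        |∑ n ∈ Ico N (N ^ 4), wave a β g w (fun n => X n ω) n t| ≤ 1 := by
    intro s
    rw [ae_all_iff]
    intro i
    exact hLOB Ω P X hM a β g w s A hA hW _ (hδ0 i) (hδ1 i)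
  have lim : Tendsto (fun i : ℕ => Real.cos (Real.pi * (1 / ((i : ℝ) + 3)))) atTop (𝓝 1) := by
    have h1 : Tendsto (fun i : ℕ => 1 / ((i : ℝ) + 3)) atTop (𝓝 0) := by
      refine Tendsto.div_atTop tendsto_const_nhds ?_
      exact tendsto_atTop_add_const_right _ _ tendsto_natCast_atTop_atTop
    have h2 := (Real.continuous_cos.tendsto _).comp (h1.const_mul Real.pi)
    rw [mul_zero, Real.cos_zero] at h2
    exact h2
  filter_upwards [key (fun n => β n / (2 * Real.pi)), key (fun n => β n / (2 * Real.pi) + 1 / 2)]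
    with ω k1 k2
  intro σ hσ c hc0 hc1
  obtain ⟨i, hi⟩ := (lim.eventually (lt_mem_nhds hc1)).exists
  have hpi : (2 * Real.pi) ≠ 0 := by positivity
  rcases hσ with rfl | rfl
  · refine det hARC hA.1 (hδ0 i) (hδ1 i) hi.le (fun n t => ?_) (k1 i)
    rw [two_pi_arg, one_mul, mul_div_cancel₀ _ hpi]
  · refine det hARC hA.1 (hδ0 i) (hδ1 i) hi.le (fun n t => ?_) (k2 i)
    rw [two_pi_arg, mul_add, mul_div_cancel₀ _ hpi]
    have e : (g n + w n * (X n ω).1) * t + 2 * Real.pi * (X n ω).2 + (β n + 2 * Real.pi * (1 / 2)) =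
        ((g n + w n * (X n ω).1) * t + 2 * Real.pi * (X n ω).2 + β n) + Real.pi := by ring
    rw [e, Real.cos_add_pi]
    ring

end Pool.Agent.H550.RO
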